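import Pool.Agent.H95.GY.Targets

/-!
# MP_c39b0e_gt: module RET (board gy_modules)

The retraction for subgroups which contain a good subgroup.
-/

set_option autoImplicit false

open Filter Topology Set
open Pool.Agent.H95.GY

universe u

namespace Pool.Agent.H78.GY

theorem pf_RET (hQNS : T_QNS.{u}) (hSLC : T_SLC.{u}) (hSEC : T_SEC.{u}) : T_RET.{u} := by
  intro G _ _ _ _ _ hG K hK N hN hNK
  have := hN.normal
  obtain ⟨hT2, hLC, hNSS⟩ := hQNS G N hN.compact hN.trap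
  have hmkc : Continuous (QuotientGroup.mk : G → G ⧸ N) := continuous_quot_mk
  have hK' : IsCompact ((K.map (QuotientGroup.mk' N) : Subgroup (G ⧸ N)) : Set (G ⧸ N)) := by
    rw [Subgroup.coe_map]
    exact hK.image hmkc
  obtain ⟨U', r', hU'o, hKU', hr'c, hr'K, hr'k, hr'e⟩ := hSLC (G ⧸ N) hNSS _ hK'
  obtain ⟨V, s, hVo, h1V, hsc, hs, hs1, hse⟩ := hSEC G hG K hK N hN
  have hmk : ∀ k ∈ K, (QuotientGroup.mk k : G ⧸ N) ∈ K.map (QuotientGroup.mk' N) :=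
    fun k hk => ⟨k, hk, rfl⟩
  -- the map to the slice
  have hsigc : ContinuousOn (fun y : G ⧸ N => y * (r' y)⁻¹) U' :=
    continuousOn_id.mul hr'c.inv
  have hsige : ∀ k ∈ K, ∀ l ∈ K, ∀ y ∈ U',
      (QuotientGroup.mk k * y * QuotientGroup.mk l : G ⧸ N) ∈ U' ∧
      (QuotientGroup.mk k * y * QuotientGroup.mk l : G ⧸ N) *
        (r' (QuotientGroup.mk k * y * QuotientGroup.mk l))⁻¹ =
        QuotientGroup.mk k * (y * (r' y)⁻¹) * (QuotientGroup.mk k)⁻¹ := by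
    intro k hk l hl y hy
    obtain ⟨h1, h2⟩ := hr'e _ (hmk k hk) _ (hmk l hl) y hy
    refine ⟨h1, ?_⟩
    rw [h2]
    group
  have hsigk : ∀ k ∈ K, (QuotientGroup.mk k : G ⧸ N) * (r' (QuotientGroup.mk k))⁻¹ = 1 := by
    intro k hk
    rw [hr'k _ (hmk k hk), mul_inv_cancel]
  have hUo : IsOpen (U' ∩ (fun y : G ⧸ N => y * (r' y)⁻¹) ⁻¹' V) :=
    hsigc.isOpen_inter_preimage hU'o hVo
  refine ⟨{g : G | (QuotientGroup.mk g : G ⧸ N) ∈
      U' ∩ (fun y : G ⧸ N => y * (r' y)⁻¹) ⁻¹' V},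
    fun g => (s ((QuotientGroup.mk g : G ⧸ N) * (r' (QuotientGroup.mk g))⁻¹))⁻¹ * g,
    hUo.preimage hmkc, ?_, ?_, ?_, ?_, ?_⟩
  · intro k hk
    refine ⟨hKU' (hmk k hk), ?_⟩
    show (QuotientGroup.mk k : G ⧸ N) * (r' (QuotientGroup.mk k))⁻¹ ∈ V
    rw [hsigk k hk]
    exact h1V
  · refine ContinuousOn.mul (ContinuousOn.inv ?_) continuousOn_id
    refine hsc.comp (t := V) ?_ (fun g hg => hg.2)
    exact hsigc.comp hmkc.continuousOn (fun g hg => hg.1)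
  · intro g hg
    obtain ⟨hg1, hg2⟩ := hg
    have h3 : (QuotientGroup.mk ((s ((QuotientGroup.mk g : G ⧸ N) *
        (r' (QuotientGroup.mk g))⁻¹))⁻¹ * g) : G ⧸ N) = r' (QuotientGroup.mk g) := by
      rw [QuotientGroup.mk_mul, QuotientGroup.mk_inv, hs _ hg2]
      group
    obtain ⟨k, hk, hk2⟩ := hr'K _ hg1
    have h4 : (QuotientGroup.mk k : G ⧸ N) = QuotientGroup.mk ((s ((QuotientGroup.mk g : G ⧸ N) *
        (r' (QuotientGroup.mk g))⁻¹))⁻¹ * g) := by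
      rw [h3]
      exact hk2
    have h5 := QuotientGroup.eq.1 h4
    have h6 := K.mul_mem hk (hNK h5)
    rwa [mul_inv_cancel_left] at h6
  · intro k hk
    show (s ((QuotientGroup.mk k : G ⧸ N) * (r' (QuotientGroup.mk k))⁻¹))⁻¹ * k = k
    rw [hsigk k hk, hs1, inv_one, one_mul]
  · intro k hk l hl x hx
    obtain ⟨hx1, hx2⟩ := hx
    obtain ⟨h1, h2⟩ := hsige k hk l hl _ hx1
    obtain ⟨h3, h4⟩ := hse k hk _ hx2
    have h5 : (QuotientGroup.mk (k * x * l) : G ⧸ N) =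
        QuotientGroup.mk k * QuotientGroup.mk x * QuotientGroup.mk l := rfl
    refine ⟨⟨?_, ?_⟩, ?_⟩
    · rw [h5]
      exact h1
    · show (QuotientGroup.mk (k * x * l) : G ⧸ N) * (r' (QuotientGroup.mk (k * x * l)))⁻¹ ∈ V
      rw [h5, h2]
      exact h3
    · show (s ((QuotientGroup.mk (k * x * l) : G ⧸ N) *
        (r' (QuotientGroup.mk (k * x * l)))⁻¹))⁻¹ * (k * x * l) =
        k * ((s ((QuotientGroup.mk x : G ⧸ N) * (r' (QuotientGroup.mk x))⁻¹))⁻¹ * x) * l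
      rw [h5, h2, h4]
      group

end Pool.Agent.H78.GY
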